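import Pool.Agent.Lib.MP_5684f0_lc.X.Base
import Pool.Agent.Lib.MP_5684f0_lc.W.Build

/-! Copy of the builder of `W/Build` with a level that depends on the board. -/

namespace Pool.Agent.Lib.MP_5684f0_lc.X

open Filter Topology Set PiNat G T

variable {D α : Type} [TopologicalSpace D] [DiscreteTopology D]

variable {p : ℕ → Y D → ℕ → α} {V : ℕ → ℕ → Bool → Set (Y D)} {O : ℕ → Set (Y D)} {a : ℕ → ℕ}
  {E : ℕ → Set (ℕ → Y D)}

theorem step (hp : ∀ m, Lip id (p m)) (hO : ∀ m, IsOpen (O m))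
    (hb : ∀ (x : ℕ → Y D) (s l i : ℕ), i ≤ s → (∀ m < s, cylinder (x m) l ⊆ O m) →
      ∃ n, s ≤ n ∧ Rq p V O a (E i) (st x s l O) i n) {t n : ℕ} {e : ℕ → Set (Y D)}
    {A : Set (ℕ → Y D)} (h1 : t ≤ n) (h2 : Tre p V O a A n (n - t) e) {x : ℕ → Y D}
    (hx : ∀ m, x m ∈ O m) (hx' : ∀ m < n, x m ∈ e m) (M : ℕ) (b : Bool) :
    ∃ (n' : ℕ) (e' : ℕ → Set (Y D)) (A' : Set (ℕ → Y D)) (x' : ℕ → Y D), t + 1 ≤ n' ∧
      Tre p V O a A' n' (n' - (t + 1)) e' ∧ (∀ m < n', IsOpen (e' m) ∧ x' m ∈ e' m) ∧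
      (∀ m, x' m ∈ O m) ∧ (∀ m < M, p m (x' m) ∈ cylinder (p m (x m)) M) ∧ (∀ m < t, x' m ∈ cylinder (x m) M) ∧
      e' t ⊆ V t (a t) b ∧ (n = t → A' = E t) ∧ (t < n → n' = n ∧ A' = A) := by
  have h0 : ∃ (n' : ℕ) (e' : ℕ → Set (Y D)) (A' : Set (ℕ → Y D)) (x' : ℕ → Y D), t < n' ∧
      Tre p V O a A' n' (n' - t) e' ∧ (∀ m < n', x' m ∈ e' m) ∧ (∀ m, n' ≤ m → x' m ∈ O m) ∧
      (∀ m < M, p m (x' m) ∈ cylinder (p m (x m)) M) ∧ (∀ m < t, x' m ∈ cylinder (x m) M) ∧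
      (n = t → A' = E t) ∧ (t < n → n' = n ∧ A' = A) := by
    rcases h1.eq_or_lt with rfl | h
    · obtain ⟨l, l1, l2⟩ := W.cyl_all (b := max M (t + 1)) (fun m _ => ⟨hO m, hx m⟩) M
      obtain ⟨n', b1, e', b2, b3⟩ := hb x _ l t (by omega) l2
      have b4 : ∀ m, ∃ y, (m < n' → y ∈ e' m) ∧ (n' ≤ m → y ∈ O m) := fun m => by
        by_cases hm : m < n'
        exacts [(b2 m hm).1.imp fun _ h => ⟨fun _ => h, fun h => absurd hm h.not_gt⟩,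
          ⟨x m, fun h => absurd h hm, fun _ => hx m⟩]
      choose x' b5 b6 using b4
      refine ⟨n', e', E t, x', by omega, b3, b5, b6, fun m hm => ?_, fun m hm => ?_, fun _ => rfl,
        fun h => absurd h (lt_irrefl _)⟩
      · obtain ⟨y, y1, y2⟩ := (b2 m (by omega)).2.1 _ (b5 m (by omega)) M
        rw [st, if_pos (by omega)] at y1
        exact cyl_trans (cyl_symm y2) (hp m (cylinder_anti _ l1 y1))
      · have := (b2 m (by omega)).2.2 hm (b5 m (by omega))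
        rw [st, if_pos (by omega)] at this
        exact cylinder_anti _ l1 this
    · exact ⟨n, e, A, x, h, h2, hx', fun m _ => hx m, fun _ _ => self_mem_cylinder _ _,
        fun _ _ => self_mem_cylinder _ _, fun h' => absurd h' h.ne', fun _ => ⟨rfl, rfl⟩⟩
  obtain ⟨n', e0, A', x0, b1, b2, b3, b4, b5, b6, b7⟩ := h0
  rw [show n' - t = n' - (t + 1) + 1 by omega] at b2
  obtain ⟨e', c1, c2, c3, c4⟩ := b2 b
  rw [show n' - (n' - (t + 1) + 1) = t by omega] at c1 c3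
  have c5 : ∀ m, ∃ y, (m < n' → y ∈ e' m) ∧ y ∈ O m ∧ p m y ∈ cylinder (p m (x0 m)) M ∧
      (m < t → y = x0 m) := fun m => by
    by_cases h : m < t
    · exact ⟨x0 m, fun h' => c1 m h (b3 m h'), (c2 m (by omega)).2.1 (c1 m h (b3 m (by omega))),
        self_mem_cylinder _ _, fun _ => rfl⟩
    by_cases h' : m < n'
    · obtain ⟨y, y1, y2⟩ := (c2 m h').2.2 _ (b3 m h') M
      exact ⟨y, fun _ => y1, (c2 m h').2.1 y1, y2, fun h'' => absurd h'' h⟩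
    · exact ⟨x0 m, fun h'' => absurd h'' h', b4 m (by omega), self_mem_cylinder _ _, fun _ => rfl⟩
  choose x' d1 d2 d3 d4 using c5
  exact ⟨n', e', A', x', b1, c4, fun m hm => ⟨(c2 m hm).1, d1 m hm⟩, d2,
    fun m hm => cyl_trans (d3 m) (b5 m hm), fun m hm => d4 m hm ▸ b6 m hm, c3, b7⟩

theorem build [Inhabited D] (hp : ∀ m, Lip id (p m)) (hO : ∀ m, IsOpen (O m) ∧ (O m).Nonempty)
    (hb : ∀ (x : ℕ → Y D) (s l i : ℕ), i ≤ s → (∀ m < s, cylinder (x m) l ⊆ O m) →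
      ∃ n, s ≤ n ∧ Rq p V O a (E i) (st x s l O) i n) (hE : Antitone E) {L : ℕ → Lay}
    {β : Type} {P : ℕ → ℕ → Y D → ℕ → β} (h1 : ∀ n r, Lip id (P n r))
    (h2 : ∀ n r, Tower (L n) (0 + n + 1) (P (n + 1) r) (P n r))
    (h3 : ∀ n r, r < n → Lip (P n r) id) (h4 : ∀ n r, n ≤ r → Lip (p r) (P n r)) {u : Cs → ℕ → Bool}
    (hu : ∀ t, Ms (.sum L) 0 C0 t _ fun y => u y t) :
    ∃ w : Cs → ℕ → Y D, (∀ m n, LC univ fun y => P 0 m (w y m) n) ∧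
      ∀ y, (∀ m, w y m ∈ O m ∩ V m (a m) (u y m)) ∧ ∀ k, w y ∈ E k := by
  let O' : ℕ → Set (Y (ℕ × D)) := fun m => {y | (y 0).1 = m ∧ W.un y ∈ O m}
  have cu : Continuous (W.un (D := D)) :=
    continuous_pi fun n => continuous_snd.comp (continuous_apply n)
  have hO' : ∀ m, IsOpen (O' m) := fun m => IsOpen.and
    ((isOpen_discrete {d : ℕ × D | d.1 = m}).preimage (continuous_apply (A := fun _ : ℕ => ℕ × D) 0))
    ((hO m).1.preimage cu)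
  obtain ⟨W0, w1, w2⟩ := W.run (O := O') (L := L) (q := fun n => W.glue (P n))
    (fun w hw b => W.cyl_all (fun m _ => ⟨hO' m, hw m⟩) b)
    (fun n y z M h => W.glue_iff.2 ⟨fun i hi => congrArg Prod.fst (h i hi),
      h1 _ _ fun i hi => congrArg Prod.snd (h i hi)⟩) (fun n => W.glue_tower _ _ _ _ (h2 n))
    (fun m t h y z hz M h' i hi => Prod.ext ((W.glue_iff.1 h').1 i hi)
      (h3 t _ (hz.1 ▸ h) (W.glue_iff.1 h').2 i hi))
    (S := Out O' × ℕ × (ℕ → Set (Y D)) × Set (ℕ → Y D))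
    (⟨fun m i => (m, (hO m).2.some i), 0, 0, le_rfl, fun m => ⟨rfl, (hO m).2.some_mem⟩,
      fun m hm => absurd hm (Nat.not_lt_zero m)⟩, 0, fun _ => univ, univ) Prod.fst
    (Inv := fun t s => t ≤ s.2.1 ∧ s.2.1 ≤ s.1.b ∧
      (∀ m < s.2.1, ∀ y ∈ cylinder (s.1.x m) s.1.l, W.un y ∈ s.2.2.1 m) ∧
      Tre p V O a s.2.2.2 s.2.1 (s.2.1 - t) s.2.2.1)
    ⟨le_rfl, le_rfl, fun _ _ _ _ => trivial, fun _ _ _ => trivial⟩
    (R := fun t s b s' => s'.2.2.1 t ⊆ V t (a t) b ∧ (s.2.1 = t → s'.2.2.2 = E t) ∧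
      (t < s.2.1 → s'.2.1 = s.2.1 ∧ s'.2.2.2 = s.2.2.2))
    (by
      rintro t ⟨o, n, e, A⟩ b ⟨w, M⟩ ⟨i1, i2, i3, i4⟩ ⟨g1, g2, -⟩
      obtain ⟨n', e', A', x', b1, b2, b3, b4, b5, b6, b7⟩ := step hp (fun m => (hO m).1) hb i1 i4
        (x := fun m => W.un (w m)) (fun m => (g2 m).2)
        (fun m hm => i3 m hm _ (g1 m (hm.trans_le i2))) M b
      have b8 : ∀ m, (fun i => ((w m i).1, x' m i)) ∈ O' m := fun m => ⟨(g2 m).1, b4 m⟩
      obtain ⟨l, l1, l2⟩ := W.cyl_all (b := max (M + 1) n') (w := fun m i => ((w m i).1, x' m i))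
        (U := fun m => O' m ∩ if m < n' then W.un ⁻¹' e' m else univ) (fun m _ => by
          split_ifs with h
          exacts [⟨(hO' m).inter ((b3 m h).1.preimage cu), b8 m, (b3 m h).2⟩,
            ⟨(hO' m).inter isOpen_univ, b8 m, trivial⟩]) (max (M + 1) n')
      refine ⟨(⟨_, _, l, l1, b8, fun m hm y hy => (l2 m hm hy).1⟩, n', e', A'),
        ⟨b1, le_max_right _ _, fun m hm y hy => ?_, b2⟩, b7,
        fun m hm => W.glue_iff.2 ⟨fun _ _ => rfl, ?_⟩, le_max_left (M + 1) n'⟩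
      · have := (l2 m (hm.trans_le (le_max_right _ _)) hy).2
        rwa [if_pos hm] at this
      · rw [show (w m 0).1 = m from (g2 m).1]
        rcases lt_or_ge m t with h | h
        exacts [h1 _ _ (b6 m h), h4 _ _ h (b5 m hm)]) hu
  have k1 : ∀ y m, W0 y m ∈ O' m ∧ W.un (W0 y m) ∈ V m (a m) (u y m) := fun y m => by
    obtain ⟨s, hs⟩ := w2 y
    obtain ⟨⟨i1, i2, i3, -⟩, -, i4⟩ := hs (m + 1)
    have := i4 m (Nat.lt_succ_self m) (by omega)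
    exact ⟨(s (m + 1)).1.ok.2.2 m (by omega) this, (hs m).2.1.1 (i3 m i1 _ this)⟩
  refine ⟨fun y m => W.un (W0 y m), fun m n y hy => (w1 m n y hy).mono fun y' h => by
    simpa only [W.glue, (k1 y m).1.1, (k1 y' m).1.1] using congrArg Prod.snd h,
    fun y => ⟨fun m => ⟨(k1 y m).1.2, (k1 y m).2⟩, fun k => ?_⟩⟩
  obtain ⟨s, hs⟩ := w2 y
  have k2 : ∀ d t, (s t).2.1 = t + d →
      ∃ t', t ≤ t' ∧ (s t').2.1 = t' ∧ (s t').2.2.2 = (s t).2.2.2 := fun d => by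
    induction d with
    | zero => exact fun t h => ⟨t, le_rfl, h, rfl⟩
    | succ d ih =>
      intro t h
      obtain ⟨j1, j2⟩ := (hs t).2.1.2.2 (by omega)
      obtain ⟨t', j3, j4, j5⟩ := ih (t + 1) (by omega)
      exact ⟨t', by omega, j4, j5.trans j2⟩
  obtain ⟨t, j1, j2, -⟩ := k2 _ k (Nat.add_sub_cancel' (hs k).1.1).symm
  obtain ⟨t', -, j3, j4⟩ := k2 _ (t + 1) (Nat.add_sub_cancel' (hs (t + 1)).1.1).symm
  obtain ⟨⟨-, i2, i3, i4⟩, -, i5⟩ := hs t'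
  rw [j4, (hs t).2.1.2.1 j2, show (s t').2.1 - t' = 0 by omega] at i4
  exact hE j1 (i4 _ (fun m hm => i3 m hm _ (i5 m (by omega) (by omega))) fun m _ => (k1 y m).1.2)

end Pool.Agent.Lib.MP_5684f0_lc.X
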