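import Pool.Agent.Lib.MP_5684f0_lc.X.Top
import Pool.Agent.Lib.MP_5684f0_lc.W.Impl
import Pool.Agent.Lib.MP_5684f0_lc.U.Code

/-! With infinitely many limits the two cases exclude each other (diagonal argument of helper56). -/

namespace Pool.Agent.Lib.MP_5684f0_lc.X

open Set T T.Bor

theorem exclusive (L : ℕ → Lay) (hL : ∀ r, ∃ n, r ≤ n ∧ L n = .one) (f : Cs → Cs) (c : Cs)
    (h1 : ∀ g : Cs → Cs, (∀ a, ∃ r, {x | g x a = true} ∈ BooleanSubalgebra.closure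
      {A : Set Cs | T.Sg (.sum fun n => if n ≤ r then L n else .zero) A}) → leCone g f)
    (G : ℕ → Cs → Cs) (g1 : ∀ k, ∃ r, ∀ a, {x | G k x a = true} ∈
      Cl .one (Cl .one (Cl (.sum fun n => if n ≤ r then L n else .zero) K)))
    (g2 : ∀ x, leT c x → ∃ k, leM (f x) (G k x)) : False := by
  classical
  have h0 : ∀ C : Set (Set Cs), (∃ r, C ⊆ It L K r) → ∃ r, Cl .one C ⊆ It L K r := by
    rintro C ⟨r, h⟩
    obtain ⟨n, h2, h3⟩ := hL r
    exact ⟨n + 1, (Cl_mono .one _ _ (h.trans (It_mono L _ h2))).trans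
      (show Cl .one _ ⊆ Cl (L n) _ from h3 ▸ Subset.rfl)⟩
  let X : ℕ → ℕ → Set Cs := fun m k => {x | x (2 * Nat.pair m k) = true}
  have hX : ∀ m k, X m k ∈ K := fun m k => (isClopen_discrete {true}).preimage (continuous_apply _)
  let D : ℕ → ℕ → Set Cs := fun m k => X m k \ {x | ∃ j < k, x ∈ X m j}
  obtain ⟨d, h⟩ := h1 (fun x m => decide (∃ j, x ∈ D m j \ {x | G m.unpair.1 x j = true}))
    fun m => by
      obtain ⟨r, h⟩ := g1 m.unpair.1
      obtain ⟨s, hs⟩ := h0 _ (h0 _ ⟨r + 1, W.part_sub L r⟩)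
      refine ⟨s, BooleanSubalgebra.subset_closure ⟨fun j => D m j \ {x | G m.unpair.1 x j = true},
        fun j => Cl_dif _ K difK _ (sub_Cl _ K (difK _ (hX m j) _
          (I.fin_un difK isClopen_univ (hX m) j))) _ (it_part L s (hs (h j))), ?_⟩⟩
      ext x
      simp only [mem_ofPred_eq, decide_eq_true_eq, mem_iUnion]
  obtain ⟨ε, hε⟩ := U.exists_enum_rec d
  obtain ⟨d', a1, a2⟩ := exists_upper2 c d
  obtain ⟨x, hx⟩ : ∃ x, x = join (fun q => decide (q.unpair.2 = ε q.unpair.1.unpair.2 q.unpair.1))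
    d' := ⟨_, rfl⟩
  have hd : leT d' x := hx ▸ leT_join_right _ d'
  obtain ⟨ρ, r1, r2⟩ := h x (a2.trans hd)
  obtain ⟨k, σ, s1, s2⟩ := g2 x (a1.trans hd)
  obtain ⟨i, hi⟩ := hε (σ ∘ ρ) ((Rec.of_computable s1).comp (tr_iff.1 r1))
  have e : ∀ j, x ∈ X (Nat.pair k i) j ↔ j = ε i (Nat.pair k i) := fun j => by simp [X, hx, join]
  have h2 := Bool.eq_iff_iff.1 ((r2 (Nat.pair k i)).trans (s2 _))
  rw [show σ (ρ (Nat.pair k i)) = ε i (Nat.pair k i) by rw [hi]; rfl] at h2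
  simp only [decide_eq_true_eq, Nat.unpair_pair] at h2
  refine iff_not_self (show G k x (ε i (Nat.pair k i)) = true ↔ ¬ _ from
    ⟨fun a => (h2.2 a).elim fun j b => ?_, fun a => h2.1
      ⟨_, ⟨(e _).2 rfl, fun ⟨j, a, b⟩ => a.ne ((e j).1 b)⟩, a⟩⟩)
  exact (e j).1 b.1.1 ▸ b.2

end Pool.Agent.Lib.MP_5684f0_lc.X
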