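import Pool.Agent.Lib.MP_5684f0_lc.X.Top
import Pool.Agent.Lib.MP_5684f0_lc.W.Impl

/-! The case of infinitely many limits: comparability with the class of the sum. -/

namespace Pool.Agent.Lib.MP_5684f0_lc.X

open Set T T.Bor

theorem comparable (L : ℕ → Lay) (hL : ∀ r, ∃ n, r ≤ n ∧ L n = .one) (f : Cs → Cs) (c : Cs)
    (hf : Measurable f) (hop : ∀ x y, leT c x → leT x y → leM (f x) (f y)) :
    (∀ g : Cs → Cs, (∀ a, {x | g x a = true} ∈ Cl (.sum L) {U | IsClopen U}) → leCone g f) ∨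
      ∃ g : Cs → Cs, (∀ a, {x | g x a = true} ∈ Cl (.sum L) {U | IsClopen U}) ∧ leCone f g := by
  have h1 : ∀ C : Set (Set Cs), (∃ r, C ⊆ It L K r) → ∃ r, Cl .one C ⊆ It L K r := by
    rintro C ⟨r, h⟩
    obtain ⟨n, h2, h3⟩ := hL r
    exact ⟨n + 1, (Cl_mono .one _ _ (h.trans (It_mono L _ h2))).trans
      (show Cl .one _ ⊆ Cl (L n) _ from h3 ▸ Subset.rfl)⟩
  refine (both (L := L) hf hop).imp (fun h g hg => h g fun a =>
    (W.Impl.cl_part L (hg a)).imp fun _ h => BooleanSubalgebra.subset_closure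
      ⟨fun _ => _, fun _ => h, (iUnion_const _).symm⟩) fun ⟨G, g1, g2⟩ =>
      ⟨fun x n => G n.unpair.1 x n.unpair.2, fun a => ?_, c, fun x hx => ?_⟩
  · obtain ⟨r, h⟩ := g1 a.unpair.1
    obtain ⟨s, hs⟩ := h1 _ (h1 _ ⟨r + 1, W.part_sub L r⟩)
    exact mem_iUnion.2 ⟨s, hs (h _)⟩
  · obtain ⟨k, ρ, h1, h2⟩ := g2 x hx
    exact ⟨_, tr_iff.2 (.of_computable ((computable_pair_left k).comp h1)),
      fun n => by simpa using h2 n⟩

end Pool.Agent.Lib.MP_5684f0_lc.X
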