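import Pool.Agent.Lib.MP_5684f0_lc.I.Main
import Pool.Agent.Lib.MP_5684f0_lc.X.Build
import Pool.Agent.Lib.MP_5684f0_lc.W.Top

/-! A Borel order preserving function lies above the class of a sum or, piece by piece, below
functions of the initial sums. The lemmas up to `exists_bit2` are copied from `J/Rank` (helper56). -/

namespace Pool.Agent.Lib.MP_5684f0_lc.X

open Filter Topology Set PiNat G T T.Bor I
open scoped Ordinal

variable {C : Set (Set Cs)} {J : SId} {B : Cs → Bool}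

theorem bound (γ : ℕ → Ordinal.{0}) (h : ∀ n, γ n < ω₁) : ∃ η < ω₁, ∀ n, γ n < η :=
  ⟨⨆ n, γ n + 1, Ordinal.iSup_lt_omega_one fun n => succ_lt_omega_one (h n), fun n =>
    (Order.lt_succ (γ n)).trans_le (Ordinal.le_iSup (fun n => γ n + 1) n)⟩

theorem pr_lt (hd : Dif C) (ht : univ ∈ C) {η η' : Ordinal.{0}} {b b' : Bool} {A : Set Cs}
    (h : η < η') (hA : Pr C η b A) : Pr C η' b' A := by
  obtain ⟨st, s1, s2⟩ := hA
  refine ⟨fun y t => Nat.casesOn t (η', b') (st y), fun t u => ?_, fun y => ⟨rfl, fun t => ?_, ?_⟩⟩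
  · rcases t with _ | t
    · by_cases h : (η', b') = u
      · simpa [h] using ht
      · simpa [h] using hd _ ht _ ht
    · exact s1 t u
  · rcases t with _ | t
    · exact Or.inr (show (st y 0).1 < η' by rw [(s2 y).1]; exact h)
    · exact (s2 y).2.1 t
  · obtain ⟨T, hT⟩ := eventually_atTop.1 (s2 y).2.2
    refine eventually_atTop.2 ⟨T + 1, fun t ht => ?_⟩
    obtain ⟨t, rfl⟩ : ∃ r, t = r + 1 := ⟨t - 1, by omega⟩
    exact hT t (by omega)

theorem E_mono {γ γ' : Ordinal.{0}} (h : γ ≤ γ') (b : Bool) :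
    Le (E C J B γ b) (E C J B γ' b) := by
  rw [E]
  exact ext_le (le_E _ _) fun A hA => hA.elim (fun e => e ▸ bad_E _ _)
    fun ⟨a, _, d, _, e⟩ => low_E (d.trans_le h) _ _ a e

/-- The union of the ideals of all countable states with a given guess. -/
def H (C : Set (Set Cs)) (J : SId) (B : Cs → Bool) (b : Bool) : SId where
  N A := ∃ γ < ω₁, (E C J B γ b).N A
  empty := ⟨0, Ordinal.omega_pos 1, SId.empty _⟩
  mono := fun h ⟨γ, a, c⟩ => ⟨γ, a, SId.mono _ h c⟩
  iUnion A h := by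
    choose γ a c using h
    obtain ⟨η, e1, e2⟩ := bound γ a
    exact ⟨η, e1, SId.iUnion _ A fun n => E_mono (e2 n).le _ (c n)⟩

theorem le_H (b : Bool) : Le J (H C J B b) := fun _ h => ⟨0, Ordinal.omega_pos 1, le_E _ _ h⟩

theorem low_H (b b' : Bool) {U : Set Cs} (hU : U ∈ C) (h : (H C J B b').N U) : (H C J B b).N U :=
  h.elim fun γ h => ⟨γ + 1, succ_lt_omega_one h.1, low_E (Order.lt_succ γ) _ _ hU h.2⟩

/-- Sets covered by pieces on which all bits are guessed from one countable state. -/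
def covA (hd : Dif C) (ht : univ ∈ C) (f : Cs → Cs) : SId where
  N A := ∃ η < ω₁, (I.cov C f η true).N A
  empty := ⟨0, Ordinal.omega_pos 1, SId.empty _⟩
  mono := fun h ⟨γ, a, c⟩ => ⟨γ, a, SId.mono _ h c⟩
  iUnion A h := by
    choose γ a c using h
    obtain ⟨η, e1, e2⟩ := bound γ a
    exact ⟨η, e1, SId.iUnion _ A fun n => (c n).imp fun _ h => ⟨h.1, fun l a d =>
      (h.2 l a d).imp fun _ h => ⟨pr_lt hd ht (e2 n) h.1, h.2⟩⟩⟩

theorem exists_bit2 (hd : Dif C) (ht : univ ∈ C) {f : Cs → Cs} (h : Le (covA hd ht f) J)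
    (hJ : ¬ J.N univ) : ∃ a, ∀ b, ¬ (H C J (f · a) b).N univ := by
  by_contra hc
  simp only [not_exists, not_forall, not_not] at hc
  choose b γ g1 g2 using hc
  choose M A h1 h2 h3 using fun a => proc_E hd ht (γ a) (b a) _ (g2 a)
  obtain ⟨η, e1, e2⟩ := bound γ g1
  refine hJ (union_compl_self (⋃ a, M a) ▸ J.union (J.iUnion M h1) (h ⟨η, e1,
    fun _ => (⋃ a, M a)ᶜ, subset_iUnion (fun _ : ℕ => (⋃ a, M a)ᶜ) 0, fun _ a _ =>
      ⟨_, pr_lt hd ht (e2 a) (h2 a), fun y hy => h3 a y trivial fun e => hy (mem_iUnion.2 ⟨a, e⟩)⟩⟩))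

theorem pr_cl (hd : Dif C) (ht : univ ∈ C) {η : Ordinal.{0}} (hη : η < ω₁) {b : Bool} {A : Set Cs}
    (h : Pr C η b A) : A ∈ Cl .one C := by
  obtain ⟨st, s1, s2⟩ := h
  obtain ⟨en, hen⟩ := (countable_lower (succ_lt_omega_one hη)).exists_eq_range
    ⟨(η, b), Order.lt_succ η⟩
  refine ⟨fun t => {y | ∃ k < t, y ∈ if (en k).2 = true then {y | st y t = en k} else ∅},
    fun t => fin_un hd ht (fun k => ?_) t, fun y => ?_⟩
  · split_ifs
    exacts [s1 _ _, by simpa using hd _ ht _ ht]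
  obtain ⟨t0, h0⟩ := Down.stab (s2 y).2.1
  have e0 : (st y t0).1 ≤ η := by
    rcases down_le (s2 y).2.1 (Nat.zero_le t0) with d | d <;> rw [(s2 y).1] at d
    exacts [by rw [d], d.le]
  obtain ⟨k, hk⟩ : st y t0 ∈ range en := hen ▸ Order.lt_succ_of_le e0
  filter_upwards [(s2 y).2.2, eventually_ge_atTop t0, eventually_gt_atTop k] with t h1 h2 h3
  have h4 : st y t = en k := (h0 t h2).trans hk.symm
  refine Iff.trans ⟨fun ⟨j, _, hj⟩ => ?_, fun h => ⟨k, h3, by rw [if_pos (h4 ▸ h)]; exact h4⟩⟩ h1.symm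
  split_ifs at hj with c
  exacts [(show st y t = en j from hj) ▸ c, hj.elim]

theorem tower_map {D α : Type} (L : Lay) : ∀ c (p p' : Y D → ℕ → α), Tower L c p p' →
    Tower L c (fun y i => (p y i, 0)) fun y i => (p' y i, 0) := by
  have h1 : ∀ {p p' : Y D → ℕ → α}, Lip p p' →
      Lip (fun y i => (p y i, 0)) fun y i => (p' y i, 0) := fun h _ _ _ h' i hi =>
    Prod.ext (h (fun j hj => (Prod.ext_iff.1 (h' j hj)).1) i hi) rfl
  induction L with
  | zero => exact fun _ _ _ h => h1 h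
  | one => exact fun _ _ _ h => ⟨h1 h.1, fun x z l M hc hx =>
      (h.2 x z l M hc fun j hj => (Prod.ext_iff.1 (hx j hj)).1).imp fun _ h =>
        ⟨h.1, fun i hi => Prod.ext (h.2 i hi) rfl⟩⟩
  | sum L ih => exact fun _ _ _ ⟨q, a, b⟩ => ⟨fun n y i => (q n y i, 0), a ▸ rfl,
      fun n => ⟨h1 (b n).1, ih n _ _ _ (b n).2⟩⟩

/-- Sets covered by countably many pieces, on each of which all bits lie in one class. -/
def cvr (D : ℕ → Set (Set Cs)) (f : Cs → Cs) : SId where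
  N A := ∃ (Y : ℕ → Set Cs) (k : ℕ → ℕ), A ⊆ ⋃ l, Y l ∧ ∀ l a, (Y l).Nonempty →
    ∃ A' ∈ D (k l), ∀ y ∈ Y l, (f y a = true ↔ y ∈ A')
  empty := ⟨fun _ => ∅, fun _ => 0, empty_subset _, fun _ _ h => absurd h not_nonempty_empty⟩
  mono := fun h ⟨Y, k, h1, h2⟩ => ⟨Y, k, h.trans h1, h2⟩
  iUnion A h := by
    choose Y k h1 h2 using h
    refine ⟨fun l => Y l.unpair.1 l.unpair.2, fun l => k l.unpair.1 l.unpair.2,
      iUnion_subset fun n x hx => ?_, fun l => h2 _ _⟩
    obtain ⟨k, hk⟩ := mem_iUnion.1 (h1 n hx)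
    exact mem_iUnion.2 ⟨Nat.pair n k, by simpa using hk⟩

theorem free (F : Frc) {ν ν' : ℕ → Set (Set Cs)} (hν : Based ν' C) (k1 : ∀ n, F.ClK (ν' n))
    (hT : Tower .one 0 (F.vw ν') (F.vw ν)) {f : Cs → Cs} (h0 : Le (covA hν.dif hν.top f) F.J0)
    (k2 : ∀ a b, ∀ J ∈ range F.e, H C J (f · a) b ∈ range F.e) (A : Set (Y ℕ)) (hA : IsOpen A)
    (hne : A.Nonempty) : ∃ O a, IsOpen O ∧ O.Nonempty ∧ O ⊆ A ∧
      Free (F.vw ν) (fun a b => F.Fo {x | f x a ≠ b}) O a := by
  obtain ⟨y, hy⟩ := hne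
  obtain ⟨l, hl⟩ := (ev_cyl (hA.mem_nhds hy)).exists
  obtain ⟨a, ha⟩ := exists_bit2 hν.dif hν.top (J := F.St y l)
    (fun _ h => F.St_mono y (Nat.zero_le l) (h0 h)) (F.inv y l).1.1
  obtain ⟨x0, x1, x2⟩ := F.ext1 y l (k2 a true _ (F.inv y l).1.2) (ha _) (le_H _)
  have o1 : IsOpen (cylinder y l ∩ {x | ∃ n b, Le (H C (F.St y l) (f · a) b) (F.St x n)}) :=
    (cyl_open y l).inter (F.op_St fun X => ∃ b, Le (H C (F.St y l) (f · a) b) X)
  refine ⟨_, a, o1, ⟨x0, x1, l + 1, true, x2⟩, inter_subset_left.trans hl,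
    fun A' a1 ⟨x, a2⟩ a3 b => ?_⟩
  obtain ⟨M, hM⟩ := (ev_cyl (a1.mem_nhds a2)).exists
  obtain ⟨hx, n0, b0, hn⟩ := a3 a2
  obtain ⟨x', b1, b2⟩ := F.mix hν k1 x x l
    (H := fun n => if n < n0 then F.St y l else H C (F.St y l) (f · a) b)
    (fun n => by
      split_ifs
      exacts [fun _ a => a, le_H _, by omega, fun _ a => a])
    (by
      rw [F.St_congr hx l le_rfl]
      split_ifs
      exacts [fun _ a => a, le_H _])
    (fun n => by
      split_ifs
      exacts [(F.inv y l).1.2, k2 a _ _ (F.inv y l).1.2])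
    fun n h1 U hU h2 => by
      split_ifs at h2
      · exact F.St_mono x (by omega) (F.St_congr hx l le_rfl ▸ h2)
      · exact F.St_mono x (by omega) (hn (low_H _ _ hU h2))
  have b3 : Le (H C (F.St y l) (f · a) b) (F.St x' (max l n0 + 1)) := by
    simpa only [if_neg (le_max_right l n0).not_gt] using (b2 _ (le_max_left l n0)).1
  refine ⟨(_ ∩ F.Fo {x | f x a ≠ b}) ∩ {z | F.vw ν' z ∈ cylinder (F.vw ν' x) M},
    (o1.inter (F.op_St (·.N {x | f x a ≠ b}))).inter (op_of (F.lip_id ν') _ _),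
    ⟨x', ⟨⟨cyl_trans b1 hx, _, b, b3⟩, _, b3 ⟨0, Ordinal.omega_pos 1, bad_E _ _⟩⟩,
      F.mix' b1 (self_mem_cylinder _ _) (fun n h => (b2 n h).2) M⟩, inter_subset_left,
    fun z hz M' => ?_⟩
  obtain ⟨v, v1, v2⟩ := hT.2 z x M M' (Nat.zero_le M) hz.2
  exact ⟨v, hM v1, v2⟩

theorem dich0 {L : ℕ → Lay} {f : Cs → Cs} (hf : Measurable f) (hop : OP f) :
    (∀ g : Cs → Cs, (∀ a, {x | g x a = true} ∈ Cl (.sum L) K) → leCone g f) ∨
      ∃ G : ℕ → Cs → Cs, (∀ k, ∃ r, ∀ a,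
        {x | G k x a = true} ∈ Cl .one (Cl .one (It L K r))) ∧
        ∀ x, ∃ k, leM (f x) (G k x) := by
  classical
  by_cases hc : (cvr (fun r => Cl .one (Cl .one (It L K r))) f).N univ
  · obtain ⟨Y, k, h1, h2⟩ := hc
    have h3 : ∀ l a, ∃ A' ∈ Cl .one (Cl .one (It L K (k l))),
        ∀ y ∈ Y l, (f y a = true ↔ y ∈ A') := fun l a => (Y l).eq_empty_or_nonempty.elim
      (fun e => ⟨∅, sub_Cl _ _ (sub_Cl _ _ (It_mono L K (Nat.zero_le _)
        isClopen_empty)), by simp [e]⟩) (h2 l a)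
    choose A a1 a2 using h3
    refine Or.inr ⟨fun l y n => decide (y ∈ A l n), fun l => ⟨k l, fun n => by simpa using a1 l n⟩,
      fun y => ?_⟩
    obtain ⟨l, hl⟩ := mem_iUnion.1 (h1 (mem_univ y))
    exact ⟨l, id, Computable.id, fun n => Bool.eq_iff_iff.2 (by simpa using a2 l n y hl)⟩
  refine Or.inl fun g hg => ?_
  choose G M g1 g2 g3 g4 g5 using fun k (ν : {ν // Based ν (It L K k)}) =>
    I.tower (L k) (0 + k + 1) ν.2
  let q : ∀ k, {ν // Based ν (It L K k)} := fun k =>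
    Nat.rec (motive := fun k => {ν // Based ν (It L K k)}) ⟨nu0, based0⟩
      (fun k ν => ⟨G k ν, g1 k ν⟩) k
  have e1 : ∀ k k', k ≤ k' → ∀ n, (q k).1 n ⊆ (q k').1 n := fun k k' hk n => by
    induction hk with
    | refl => exact Subset.rfl
    | step _ ih => exact ih.trans (g3 _ _ n)
  choose ν' M' j1 j2 j3 j4 j5 using fun k => I.tower .one 0 (q k).2
  choose S S1 S2 using fun p : ℕ × Bool => gen_borel {x | f x p.1 ≠ p.2}
    (((measurable_pi_apply p.1).comp hf) (measurableSet_singleton p.2)).compl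
  obtain ⟨F, f0, hF⟩ := exists_frc hc (Ω := ((fun μ J X => ext J {W ∈ μ | X.N W}) ''
    (⋃ k, M k (q k) ∪ M' k ∪ range (ν' k)) ∪ (fun A J _ => ext J {A}) '' ⋃ p, S p) ∪
      range fun (p : ℕ × ℕ × Bool) J _ => H (Cl .one (It L K p.1)) J (f · p.2.1) p.2.2)
    ((((countable_iUnion fun k => ((g2 _ _).union (j2 k)).union (countable_range _)).image _).union
      ((countable_iUnion S1).image _)).union (countable_range _))
  have k1 : ∀ k, ∀ μ ∈ M k (q k) ∪ M' k ∪ range (ν' k), F.ClK μ := fun k μ h =>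
    hF _ (Or.inl (Or.inl ⟨μ, mem_iUnion.2 ⟨k, h⟩, rfl⟩))
  let Y := Y ℕ
  let pr := F.pr
  have continuous_pr : Continuous pr :=
    continuous_pi fun q => continuous_iff_continuousAt.2 fun y => continuousAt_const.congr
      (Eventually.mono ((cyl_open y (q + 1)).mem_nhds (self_mem_cylinder y _)) fun _ h =>
        (F.pr_vw _ _ _ (F.lip_id nu0 h q (Nat.lt_succ_self q))).symm)
  have hG : ∀ᶠ y in residual Y, ∀ a b, y ∈ F.Fo {x | f x a ≠ b} → f (pr y) a = b :=
    (eventually_countable_forall.2 fun p => S2 p F fun A h J hJ =>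
      hF _ (Or.inl (Or.inr ⟨A, mem_iUnion.2 ⟨p, h⟩, rfl⟩)) J hJ J hJ).mono fun y h a b h' =>
        by_contra fun c => F.excl h' ((h (a, b)).1 c)
  obtain ⟨e, he⟩ := exists_enum
  have mb : ∀ {X : Type} [TopologicalSpace X] [MeasurableSpace X] [BorelSpace X] {φ : X → Cs},
      Continuous φ → ∀ n, Measurable fun x => f (φ x) n :=
    fun hφ n => (measurable_pi_apply n).comp (hf.comp hφ.measurable)
  let cd : (ℕ → Y) → Cs := fun w => code fun m => pr (w m)
  have hcd : Continuous cd := continuous_code.comp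
    (continuous_pi fun m => continuous_pr.comp (continuous_apply m))
  have hsh : ∀ i, Continuous fun (w : ℕ → Y) m => w (m + i) := fun i =>
    continuous_pi fun m => continuous_apply _
  let Z0 : ℕ → Set (ℕ → Y) := fun d =>
    (⋂ n, {w | f (cd fun m => w (m + 1)) n = f (cd w) (e d.unpair.1 n)}) ∩
      ⋂ n, {w | f (pr (w 0)) n = f (cd w) (e d.unpair.2 n)}
  choose Z hZ hZ' using fun d => MeasurableSet.residualEq_isOpen (s := Z0 d)
    ((MeasurableSet.iInter fun n => measurableSet_eq_fun (mb (hcd.comp (hsh 1)) n) (mb hcd _)).inter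
      (.iInter fun n => measurableSet_eq_fun
        (mb (continuous_pr.comp (continuous_apply 0)) n) (mb hcd _)))
  have hZ1 : ∀ᶠ w in residual (ℕ → Y), ∀ d, w ∈ Z0 d ↔ w ∈ Z d :=
    eventually_countable_forall.2 fun d => (hZ' d).mem_iff
  have hd : Dense (⋃ d, Z d) := dense_of_mem_residual (hZ1.mono fun w hw => by
    obtain ⟨ρ, hρ, h1⟩ := hop _ _ (leT_code_shift fun m => pr (w m))
    obtain ⟨σ, hσ, h2⟩ := hop _ _ (leT_code_zero fun m => pr (w m))
    obtain ⟨i, rfl⟩ := he ρ hρ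
    obtain ⟨j, rfl⟩ := he σ hσ
    exact mem_iUnion.2 ⟨Nat.pair i j, (hw _).1 ⟨mem_iInter.2 fun n => by
      simpa only [Nat.unpair_pair, mem_ofPred_eq] using h1 n, mem_iInter.2 fun n => by
      simpa only [Nat.unpair_pair, mem_ofPred_eq] using h2 n⟩⟩)
  have hso : ∀ i, IsOpenMap fun (w : ℕ → Y) m => w (m + i) := fun i => .of_sections fun w =>
    ⟨fun v m => if m < i then w m else v (m - i), (continuous_pi fun m => by
      split_ifs; exacts [continuous_const, continuous_apply _]).continuousAt,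
      funext fun m => by
        dsimp only; split_ifs with h; exacts [rfl, by rw [Nat.sub_add_cancel (not_lt.1 h)]],
      fun v => funext fun m => by simp⟩
  obtain ⟨T0, t1, t2, t3, t4⟩ := mem_residual_iff.1 ((eventually_countable_forall.2 fun i =>
    (tendsto_residual_of_isOpenMap (hsh i) (hso i)).eventually hZ1).and
    (eventually_countable_forall.2 fun m => (tendsto_residual_of_isOpenMap
      (continuous_apply (A := fun _ : ℕ => Y) m) (isOpenMap_eval m)).eventually hG))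
  obtain ⟨E, hE⟩ := (t3.insert univ).exists_eq_range (insert_nonempty _ _)
  have hE' : ∀ j, IsOpen (E j) ∧ Dense (E j) := fun j => by
    rcases (hE ▸ mem_range_self j : E j ∈ insert univ T0) with h | h
    exacts [h ▸ ⟨isOpen_univ, dense_univ⟩, ⟨t1 _ h, t2 _ h⟩]
  obtain ⟨O, a, d, o1, o2, o3⟩ := X.base (E := fun i => ⋂ k ∈ Iic i, E k)
    (p := fun r => F.vw (q r).1) (V := fun _ a b => F.Fo {x | f x a ≠ b}) (Z := fun _ => Z)
    (fun r => free F (j1 r) (fun n => k1 r _ (Or.inr (mem_range_self n)))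
      (j5 r F fun μ h => k1 r μ (Or.inl (Or.inr h)))
      (f0 ▸ fun _ ⟨η, hη, Y, h1, h2⟩ => ⟨Y, fun _ => r, h1, fun l a h =>
        (h2 l a h).imp fun _ h => ⟨pr_cl (j1 r).dif (j1 r).top hη h.1, h.2⟩⟩)
      fun a b J h => hF _ (Or.inr ⟨(r, a, b), rfl⟩) J h J h) (fun _ => hZ) (fun _ => hd)
    (fun j => (finite_Iic j).isOpen_biInter fun k _ => (hE' k).1)
    fun j => dense_biInter_of_isOpen (fun k _ => (hE' k).1) (to_countable _) fun k _ => (hE' k).2
  obtain ⟨hC, -⟩ := Good.ms (.sum L) 0 good_C0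
  choose tm hm using fun m => Cl.ms (.sum L) 0 good_C0 (fun U (hU : IsClopen U) => ⟨0, fun y _ =>
    mem_nhdsWithin_of_mem_nhds (by
      by_cases h : y ∈ U
      · filter_upwards [hU.2.mem_nhds h] with y' h' using by simp [h, h']
      · filter_upwards [hU.1.isOpen_compl.mem_nhds h] with y' h' using
          propext (iff_of_false h' h))⟩) _ (hg m)
  let P : ℕ → ℕ → Y → ℕ → Set (Set Cs) × ℕ := fun n r y i =>
    (F.vw (q (min n r)).1 y i, if n ≤ r then 0 else y i)
  have r0 : ∀ n r, n ≤ r → P n r = fun y i => (F.vw (q n).1 y i, 0) := fun n r h => by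
    simp only [P, if_pos h]
    rw [min_eq_left h]
  have r1 : ∀ n r, Lip id (P n r) := fun n r y z M h i hi =>
    Prod.ext (F.lip_id _ h i hi) (by simp only [P, show y i = z i from h i hi])
  have r2 : ∀ n r, r < n → Lip (P n r) id := fun n r h y z M h' i hi => by
    simpa only [P, if_neg h.not_ge, id] using (Prod.ext_iff.1 (h' i hi)).2
  obtain ⟨w, w1, w2⟩ := X.build (L := L) (fun r => F.lip_id _) o1 o3
    (fun i j h => biInter_subset_biInter_left (Iic_subset_Iic.2 h)) (P := P) r1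
    (fun n r => by
      by_cases h : n < r
      · rw [r0 _ _ h.le, r0 _ _ h]
        exact tower_map _ _ _ _ (g5 n (q n) F fun μ h => k1 n μ (Or.inl (Or.inl h)))
      · exact W.top_tower (r2 _ _ (by omega)) (r1 _ _) _ _ _ (r1 _ _)) r2
    (fun n r h => by
      rw [r0 _ _ h]
      exact fun _ _ _ h' i hi => Prod.ext (F.lip_vw (e1 n r h) h' i hi) rfl)
    (u := fun y t => decide (tm t.unpair.1 ≤ t ∧ g y t.unpair.1 = true)) fun t => by
      by_cases h : tm t.unpair.1 ≤ t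
      · simpa [h] using hC.map (fun a : Prop => decide a) (hC.mono h (hm _))
      · simpa [h] using hC.const t false
  have hw := fun y => t4 (a := w y) fun s hs => by
    obtain ⟨j, rfl⟩ : s ∈ range E := hE ▸ mem_insert_of_mem _ hs
    exact mem_iInter₂.1 ((w2 y).2 j) j (le_refl j)
  have hz := fun y i => ((hw y).1 i _).2 (o2 i (w y) fun m => ((w2 y).1 m).1)
  let κ : ℕ → ℕ → ℕ := fun i => Nat.rec id (fun i k n => k (e (d i).unpair.1 n)) i
  obtain ⟨c, hc⟩ := exists_leT_of_lc (Y := univ) (θ := fun y => cd (w y))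
    fun n y hy => (w1 n.unpair.1 n.unpair.2 y hy).mono fun _ h => by
      rw [r0 _ _ (Nat.zero_le _)] at h
      exact F.pr_vw _ _ _ (Prod.ext_iff.1 h).1
  obtain ⟨c', hc'⟩ := exists_rec fun m => κ (Nat.pair m (tm m))
    (e (d (Nat.pair m (tm m))).unpair.2 (a (Nat.pair m (tm m))))
  obtain ⟨c2, h1, h2⟩ := exists_upper2 c c'
  refine ⟨c2, fun y hy => ?_⟩
  obtain ⟨ρ, hρ, h⟩ := hop _ _ (hc y trivial (h1.trans hy))
  refine ⟨_, tr_iff.2 ((Rec.of_computable hρ).comp (hc'.mono h2)), fun m => ?_⟩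
  have hκ : ∀ i n, f (cd fun m => w y (m + i)) n = f (cd (w y)) (κ i n) := by
    intro i
    induction i with
    | zero => exact fun n => rfl
    | succ i ih =>
      intro n
      have h1 := mem_iInter.1 (hz y i).1 n
      simp only [mem_ofPred_eq, Nat.add_right_comm _ 1 i] at h1
      exact h1.trans (ih _)
  have h3 := mem_iInter.1 (hz y (Nat.pair m (tm m))).2 (a (Nat.pair m (tm m)))
  simp only [mem_ofPred_eq, Nat.zero_add] at h3
  have h4 := (hw y).2 _ _ _ ((w2 y).1 (Nat.pair m (tm m))).2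
  simp only [Nat.unpair_pair, Nat.right_le_pair, true_and, Bool.decide_eq_true] at h4
  rw [← h4, h3, hκ, h]

end Pool.Agent.Lib.MP_5684f0_lc.X
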