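import Pool.Agent.Lib.MP_5684f0_lc.X.Main

/-! The same dichotomy for one code (copy of the proof in `T/Main` over the tower of ideals), and
one statement for both cases. -/

namespace Pool.Agent.Lib.MP_5684f0_lc.X

open Filter Topology Set PiNat G T T.Bor I
open scoped Ordinal

theorem rank0 {L : Lay} {f : Cs → Cs} (hf : Measurable f) (hop : OP f) :
    (∀ g : Cs → Cs, (∀ m, FP (Ms L 0 C0) {y | g y m = true}) → leCone g f) ∨
      ∃ G : ℕ → Cs → Cs, (∀ k a, {x | G k x a = true} ∈ Cl .one (Cl .one (Cl L K))) ∧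
        ∀ x, ∃ k, leM (f x) (G k x) := by
  classical
  by_cases hc : (cvr (fun _ => Cl .one (Cl .one (Cl L K))) f).N univ
  · obtain ⟨Y, k, h1, h2⟩ := hc
    have h3 : ∀ l a, ∃ A' ∈ Cl .one (Cl .one (Cl L K)),
        ∀ y ∈ Y l, (f y a = true ↔ y ∈ A') := fun l a => (Y l).eq_empty_or_nonempty.elim
      (fun e => ⟨∅, sub_Cl _ _ (sub_Cl _ _ (sub_Cl L K isClopen_empty)), by simp [e]⟩) (h2 l a)
    choose A a1 a2 using h3
    refine Or.inr ⟨fun l y n => decide (y ∈ A l n), fun l n => by simpa using a1 l n, fun y => ?_⟩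
    obtain ⟨l, hl⟩ := mem_iUnion.1 (h1 (mem_univ y))
    exact ⟨l, id, Computable.id, fun n => Bool.eq_iff_iff.2 (by simpa using a2 l n y hl)⟩
  refine Or.inl fun g hg => ?_
  obtain ⟨ν, M, hν, hM, -, -, hT⟩ := I.tower L 0 based0
  obtain ⟨ν', M', j1, j2, -, -, j5⟩ := I.tower .one 0 hν
  choose S S1 S2 using fun p : ℕ × Bool => gen_borel {x | f x p.1 ≠ p.2}
    (((measurable_pi_apply p.1).comp hf) (measurableSet_singleton p.2)).compl
  obtain ⟨F, f0, hF⟩ := exists_frc hc (Ω := ((fun μ J X => ext J {W ∈ μ | X.N W}) ''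
    (M ∪ M' ∪ range ν') ∪ (fun A J _ => ext J {A}) '' ⋃ p, S p) ∪
      range fun (p : ℕ × Bool) J _ => H (Cl .one (Cl L K)) J (f · p.1) p.2)
    (((((hM.union j2).union (countable_range _)).image _).union
      ((countable_iUnion S1).image _)).union (countable_range _))
  have k1 : ∀ μ ∈ M ∪ M' ∪ range ν', F.ClK μ := fun μ h => hF _ (Or.inl (Or.inl ⟨μ, h, rfl⟩))
  let Y := Y ℕ
  let pr := F.pr
  have continuous_pr : Continuous pr :=
    continuous_pi fun q => continuous_iff_continuousAt.2 fun y => continuousAt_const.congr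
      (Eventually.mono ((cyl_open y (q + 1)).mem_nhds (self_mem_cylinder y _)) fun _ h =>
        (F.pr_vw _ _ _ (F.lip_id nu0 h q (Nat.lt_succ_self q))).symm)
  have hG : ∀ᶠ y in residual Y, ∀ a b, y ∈ F.Fo {x | f x a ≠ b} → f (pr y) a = b :=
    (eventually_countable_forall.2 fun p => S2 p F fun A h J hJ =>
      hF _ (Or.inl (Or.inr ⟨A, mem_iUnion.2 ⟨p, h⟩, rfl⟩)) J hJ J hJ).mono fun y h a b h' =>
        by_contra fun c => F.excl h' ((h (a, b)).1 c)
  obtain ⟨e, he⟩ := exists_enum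
  have mb : ∀ {X : Type} [TopologicalSpace X] [MeasurableSpace X] [BorelSpace X] {φ : X → Cs},
      Continuous φ → ∀ n, Measurable fun x => f (φ x) n :=
    fun hφ n => (measurable_pi_apply n).comp (hf.comp hφ.measurable)
  let cd : (ℕ → Y) → Cs := fun w => code fun m => pr (w m)
  have hcd : Continuous cd := continuous_code.comp
    (continuous_pi fun m => continuous_pr.comp (continuous_apply m))
  have hsh : ∀ i, Continuous fun (w : ℕ → Y) m => w (m + i) := fun i =>
    continuous_pi fun m => continuous_apply _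
  let Z0 : ℕ → Set (ℕ → Y) := fun d =>
    (⋂ n, {w | f (cd fun m => w (m + 1)) n = f (cd w) (e d.unpair.1 n)}) ∩
      ⋂ n, {w | f (pr (w 0)) n = f (cd w) (e d.unpair.2 n)}
  choose Z hZ hZ' using fun d => MeasurableSet.residualEq_isOpen (s := Z0 d)
    ((MeasurableSet.iInter fun n => measurableSet_eq_fun (mb (hcd.comp (hsh 1)) n) (mb hcd _)).inter
      (.iInter fun n => measurableSet_eq_fun
        (mb (continuous_pr.comp (continuous_apply 0)) n) (mb hcd _)))
  have hZ1 : ∀ᶠ w in residual (ℕ → Y), ∀ d, w ∈ Z0 d ↔ w ∈ Z d :=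
    eventually_countable_forall.2 fun d => (hZ' d).mem_iff
  have hd : Dense (⋃ d, Z d) := dense_of_mem_residual (hZ1.mono fun w hw => by
    obtain ⟨ρ, hρ, h1⟩ := hop _ _ (leT_code_shift fun m => pr (w m))
    obtain ⟨σ, hσ, h2⟩ := hop _ _ (leT_code_zero fun m => pr (w m))
    obtain ⟨i, rfl⟩ := he ρ hρ
    obtain ⟨j, rfl⟩ := he σ hσ
    exact mem_iUnion.2 ⟨Nat.pair i j, (hw _).1 ⟨mem_iInter.2 fun n => by
      simpa only [Nat.unpair_pair, mem_ofPred_eq] using h1 n, mem_iInter.2 fun n => by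
      simpa only [Nat.unpair_pair, mem_ofPred_eq] using h2 n⟩⟩)
  have hso : ∀ i, IsOpenMap fun (w : ℕ → Y) m => w (m + i) := fun i => .of_sections fun w =>
    ⟨fun v m => if m < i then w m else v (m - i), (continuous_pi fun m => by
      split_ifs; exacts [continuous_const, continuous_apply _]).continuousAt,
      funext fun m => by
        dsimp only; split_ifs with h; exacts [rfl, by rw [Nat.sub_add_cancel (not_lt.1 h)]],
      fun v => funext fun m => by simp⟩
  obtain ⟨T0, t1, t2, t3, t4⟩ := mem_residual_iff.1 ((eventually_countable_forall.2 fun i =>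
    (tendsto_residual_of_isOpenMap (hsh i) (hso i)).eventually hZ1).and
    (eventually_countable_forall.2 fun m => (tendsto_residual_of_isOpenMap
      (continuous_apply (A := fun _ : ℕ => Y) m) (isOpenMap_eval m)).eventually hG))
  obtain ⟨E, hE⟩ := (t3.insert univ).exists_eq_range (insert_nonempty _ _)
  have hE' : ∀ j, IsOpen (E j) ∧ Dense (E j) := fun j => by
    rcases (hE ▸ mem_range_self j : E j ∈ insert univ T0) with h | h
    exacts [h ▸ ⟨isOpen_univ, dense_univ⟩, ⟨t1 _ h, t2 _ h⟩]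
  obtain ⟨K0, U, u1, u2, u3, u4⟩ := exists_index (Good.ms L 0 good_C0).1 hg
  obtain ⟨O, a, d, o1, o2, o3⟩ := G.base (free F j1 (fun n => k1 _ (Or.inr (mem_range_self n)))
      (j5 F fun μ h => k1 μ (Or.inl (Or.inr h)))
      (f0 ▸ fun _ ⟨η, hη, Y, h1, h2⟩ => ⟨Y, fun _ => 0, h1, fun l a h =>
        (h2 l a h).imp fun _ h => ⟨pr_cl j1.dif j1.top hη h.1, h.2⟩⟩)
      fun a b J h => hF _ (Or.inr ⟨(a, b), rfl⟩) J h J h) hZ hd (fun j => (hE' j).1)
    (fun j => (hE' j).2) K0
  obtain ⟨σ, hσ⟩ := G.top (F.lip_id ν) o1 o3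
  obtain ⟨w, w1, w2⟩ := T.run (fun w hw b => by
    obtain ⟨l, h1, h2⟩ := ((eventually_ge_atTop b).and ((Finset.eventually_all (Finset.range b)).2
      fun m _ => ev_cyl ((o1 m).1.mem_nhds (hw m)))).exists
    exact ⟨l, h1, fun m hm => h2 m (Finset.mem_range.2 hm)⟩) (F.lip_id ν) (hT F fun μ h => k1 μ (Or.inl (Or.inl h))) σ u1
    fun y => hσ _ (g y) (u2 y) (u3 y) (u4 y)
  have hw := fun y => t4 (a := w y) fun s hs => by
    obtain ⟨j, rfl⟩ : s ∈ range E := hE ▸ mem_insert_of_mem _ hs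
    exact (w2 y).2 j
  have hz := fun y i => ((hw y).1 i _).2 (o2 i (w y) fun m => ((w2 y).1 m).1)
  let κ : ℕ → ℕ → ℕ := fun i => Nat.rec id (fun i k n => k (e (d i).unpair.1 n)) i
  obtain ⟨c, hc⟩ := exists_leT_of_lc (Y := univ) (θ := fun y => cd (w y))
    fun n y hy => (w1 _ _ y hy).mono fun _ h => F.pr_vw _ _ _ h
  obtain ⟨c', hc'⟩ := exists_rec fun m => κ m (e (d m).unpair.2 (a m))
  obtain ⟨c2, h1, h2⟩ := exists_upper2 c c'
  refine ⟨c2, fun y hy => ?_⟩
  obtain ⟨ρ, hρ, h⟩ := hop _ _ (hc y trivial (h1.trans hy))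
  refine ⟨_, tr_iff.2 ((Rec.of_computable hρ).comp (hc'.mono h2)), fun m => ?_⟩
  have hκ : ∀ i n, f (cd fun m => w y (m + i)) n = f (cd (w y)) (κ i n) := by
    intro i
    induction i with
    | zero => exact fun n => rfl
    | succ i ih =>
      intro n
      have h1 := mem_iInter.1 (hz y i).1 n
      simp only [mem_ofPred_eq, Nat.add_right_comm _ 1 i] at h1
      exact h1.trans (ih _)
  have h3 := mem_iInter.1 (hz y m).2 (a m)
  simp only [mem_ofPred_eq, Nat.zero_add] at h3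
  rw [← (hw y).2 m _ _ ((w2 y).1 m).2, h3, hκ, h]

theorem it_part (L : ℕ → Lay) (s : ℕ) :
    It L K s ⊆ Cl (.sum fun n => if n ≤ s then L n else .zero) K := by
  have h2 : ∀ k ≤ s, It L K k ⊆ It (fun n => if n ≤ s then L n else .zero) K k := fun k hk => by
    induction k with
    | zero => exact Subset.rfl
    | succ k ih =>
      show Cl (L k) _ ⊆ Cl (if k ≤ s then L k else .zero) _
      rw [if_pos (by omega)]
      exact Cl_mono _ _ _ (ih (by omega))
  exact (h2 s le_rfl).trans (subset_iUnion (It (fun n => if n ≤ s then L n else .zero) K) s)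

theorem both0 {L : ℕ → Lay} {f : Cs → Cs} (hf : Measurable f) (hop : OP f) :
    (∀ g : Cs → Cs, (∀ a, ∃ r, {x | g x a = true} ∈ BooleanSubalgebra.closure
      {A : Set Cs | T.Sg (.sum fun n => if n ≤ r then L n else .zero) A}) → leCone g f) ∨
      ∃ G : ℕ → Cs → Cs, (∀ k, ∃ r, ∀ a, {x | G k x a = true} ∈
        Cl .one (Cl .one (Cl (.sum fun n => if n ≤ r then L n else .zero) K))) ∧
        ∀ x, ∃ k, leM (f x) (G k x) := by
  by_cases h : ∃ r, ∀ n, r < n → W.Nul (L n)
  · obtain ⟨r, h⟩ := h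
    refine (rank0 (L := .sum fun n => if n ≤ r then L n else .zero) hf hop).imp
      (fun H g hg => H g fun a => .of_closure ?_) fun ⟨G, g1, g2⟩ => ⟨G, fun k => ⟨r, g1 k⟩, g2⟩
    obtain ⟨r', h'⟩ := hg a
    refine BooleanSubalgebra.closure_mono (fun A (hA : T.Sg _ A) => (?_ : T.Sg _ A)) h'
    refine hA.imp fun B b => ⟨fun n => iUnion_mono (W.It_le
      (L := fun n => if n ≤ r' then L n else .zero)
      (L' := fun n => if n ≤ r then L n else .zero) (fun n => ?_) _) (b.1 n), b.2⟩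
    split_ifs with h1 h2
    exacts [Or.inl rfl, Or.inr (h n (not_le.1 h2)), Or.inr trivial, Or.inr trivial]
  · refine (dich0 (L := L) hf hop).imp (fun H g hg => H g fun a => ?_) fun ⟨G, g1, g2⟩ =>
      ⟨G, fun k => (g1 k).imp fun r h a =>
        Cl_mono .one _ _ (Cl_mono .one _ _ (it_part L r)) (h a), g2⟩
    obtain ⟨r, h'⟩ := hg a
    push Not at h
    obtain ⟨n, h1, h2⟩ := h r
    exact mem_iUnion.2 ⟨n + 1, W.one_sub _ _ h2
      (Cl_mono .one _ _ ((W.part_sub L r).trans (It_mono L K h1)) (W.closure_sub h'))⟩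

theorem both {L : ℕ → Lay} {f : Cs → Cs} {c : Cs}
    (hf : Measurable f) (hop : ∀ x y, leT c x → leT x y → leM (f x) (f y)) :
    (∀ g : Cs → Cs, (∀ a, ∃ r, {x | g x a = true} ∈ BooleanSubalgebra.closure
      {A : Set Cs | T.Sg (.sum fun n => if n ≤ r then L n else .zero) A}) → leCone g f) ∨
      ∃ G : ℕ → Cs → Cs, (∀ k, ∃ r, ∀ a, {x | G k x a = true} ∈
        Cl .one (Cl .one (Cl (.sum fun n => if n ≤ r then L n else .zero) K))) ∧
        ∀ x, leT c x → ∃ k, leM (f x) (G k x) := by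
  refine (both0 (L := L) (f := fun x => f (join x c)) (hf.comp (continuous_join c).measurable)
    fun x y h => hop _ _ (leT_join_right x c)
      (join_leT (h.trans (leT_join_left y c)) (leT_join_right y c))).imp
    (fun h g hg => leCone_of (c := c) (c' := c) (h g hg)
      (fun _ _ => ⟨id, Computable.id, fun _ => rfl⟩)
      fun x hx => hop _ _ (leT_join_right x c) (join_leT (leT_refl x) hx))
    fun ⟨G, g1, g2⟩ => ⟨G, g1, fun x hx => (g2 x).imp fun k ⟨σ, s1, s2⟩ => ?_⟩
  obtain ⟨ρ, r1, r2⟩ := hop _ _ hx (leT_join_left x c)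
  exact ⟨σ ∘ ρ, s1.comp r1, fun n => (r2 n).trans (s2 _)⟩

end Pool.Agent.Lib.MP_5684f0_lc.X
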